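import Pool.Agent.Helper58.SU.StP
import Pool.Agent.Helper48.BK.StD

/-! # Project SU: module TIIS (type two sums in a short interval); adapted from
`Pool.Agent.Helper48.BK.M_TII`. -/

set_option autoImplicit false

namespace Pool.Agent.Helper80.SU

open Finset
open Pool.Agent.Helper58.SU
open Pool.Agent.Helper48.BK (ex Apx gs nd StGeo1 StGeo2)

theorem ex_mul_conj (s t : ℝ) : ex s * (starRingEnd ℂ) (ex t) = ex (s - t) := by
  unfold ex
  rw [← Complex.exp_conj, ← Complex.exp_add]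
  congr 1
  simp only [map_mul, Complex.conj_ofReal, Complex.conj_I, map_ofNat]
  push_cast
  ring

/-- the inner sum over `u` -/
theorem inner_S (ha : StGeo1) (P y h V : ℕ) (hP : 1 ≤ P) (hy : 1 ≤ y) (α : ℝ) (b : ℕ → ℝ)
    (v v' : ℕ) (hv : 0 < v) (hv' : 0 < v') :
    ‖∑ u ∈ Ioc P (2 * P), (if V < v ∧ y < u * v ∧ u * v ≤ y + h then
        (b v : ℂ) * ex (u * v * α) else 0) *
      (starRingEnd ℂ) (if V < v' ∧ y < u * v' ∧ u * v' ≤ y + h then
        (b v' : ℂ) * ex (u * v' * α) else 0)‖ ≤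
      |b v| * |b v'| * (if v ≤ v' + h / P ∧ v' ≤ v + h / P then
        gs (2 * P * h / y + 1) (((v : ℝ) - v') * α) else 0) := by
  obtain ⟨h1, h2, h3, -⟩ := ha
  have hP0 : (0 : ℝ) ≤ P := Nat.cast_nonneg P
  have hyr : (1 : ℝ) ≤ y := by exact_mod_cast hy
  have hN0 : (0 : ℝ) ≤ 2 * P * h / y + 1 := by positivity
  have hrhs : 0 ≤ |b v| * |b v'| * (if v ≤ v' + h / P ∧ v' ≤ v + h / P then
        gs (2 * P * h / y + 1) (((v : ℝ) - v') * α) else 0) := by
    refine mul_nonneg (mul_nonneg (abs_nonneg _) (abs_nonneg _)) ?_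
    split_ifs
    · exact h3 _ _ hN0
    · exact le_rfl
  -- the set of the `u`
  set W : Finset ℕ := (Ioc P (2 * P)).filter
    (fun u => (V < v ∧ y < u * v ∧ u * v ≤ y + h) ∧ (V < v' ∧ y < u * v' ∧ u * v' ≤ y + h)) with hW
  have hsum : ∑ u ∈ Ioc P (2 * P), (if V < v ∧ y < u * v ∧ u * v ≤ y + h then
        (b v : ℂ) * ex (u * v * α) else 0) *
      (starRingEnd ℂ) (if V < v' ∧ y < u * v' ∧ u * v' ≤ y + h then
        (b v' : ℂ) * ex (u * v' * α) else 0) =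
      ((b v * b v' : ℝ) : ℂ) * ∑ u ∈ W, ex (u * (((v : ℝ) - v') * α)) := by
    rw [hW, sum_filter, mul_sum]
    refine sum_congr rfl fun u _ => ?_
    by_cases h4 : V < v ∧ y < u * v ∧ u * v ≤ y + h
    · by_cases h5 : V < v' ∧ y < u * v' ∧ u * v' ≤ y + h
      · rw [if_pos h4, if_pos h5, if_pos ⟨h4, h5⟩, map_mul, Complex.conj_ofReal]
        have h6 := ex_mul_conj (u * v * α) (u * v' * α)
        have h7 : (u : ℝ) * v * α - u * v' * α = u * (((v : ℝ) - v') * α) := by ring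
        rw [h7] at h6
        rw [← h6]
        push_cast
        ring
      · have e : ¬((V < v ∧ y < u * v ∧ u * v ≤ y + h) ∧ (V < v' ∧ y < u * v' ∧ u * v' ≤ y + h)) :=
          fun hh => h5 hh.2
        rw [if_pos h4, if_neg h5, if_neg e, map_zero, mul_zero, mul_zero]
    · have e : ¬((V < v ∧ y < u * v ∧ u * v ≤ y + h) ∧ (V < v' ∧ y < u * v' ∧ u * v' ≤ y + h)) :=
        fun hh => h4 hh.1
      rw [if_neg h4, zero_mul, if_neg e, mul_zero]
  rw [hsum]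
  rcases W.eq_empty_or_nonempty with hWe | ⟨u₀, hu₀⟩
  · rw [hWe, sum_empty, mul_zero, norm_zero]
    exact hrhs
  rw [hW, mem_filter, mem_Ioc] at hu₀
  obtain ⟨⟨hu1, hu2⟩, ⟨hV, hu3, hu4⟩, ⟨hV', hu5, hu6⟩⟩ := hu₀
  -- closeness of `v` and `v'`
  have hc1 : v ≤ v' + h / P := by
    by_contra hlt
    push Not at hlt
    have hvv : v' ≤ v := (Nat.le_add_right _ _).trans hlt.le
    obtain ⟨k, hk⟩ := Nat.exists_eq_add_of_le hvv
    have hk1 : h / P < k := by
      rw [hk] at hlt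
      exact Nat.lt_of_add_lt_add_left hlt
    have hk2 : h < k * P := by
      rwa [Nat.div_lt_iff_lt_mul (by omega)] at hk1
    have hk3 : k * P ≤ u₀ * k := by
      rw [mul_comm]
      exact Nat.mul_le_mul_right _ hu1.le
    rw [hk, mul_add] at hu4
    omega
  have hc2 : v' ≤ v + h / P := by
    by_contra hlt
    push Not at hlt
    have hvv : v ≤ v' := (Nat.le_add_right _ _).trans hlt.le
    obtain ⟨k, hk⟩ := Nat.exists_eq_add_of_le hvv
    have hk1 : h / P < k := by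
      rw [hk] at hlt
      exact Nat.lt_of_add_lt_add_left hlt
    have hk2 : h < k * P := by
      rwa [Nat.div_lt_iff_lt_mul (by omega)] at hk1
    have hk3 : k * P ≤ u₀ * k := by
      rw [mul_comm]
      exact Nat.mul_le_mul_right _ hu1.le
    rw [hk, mul_add] at hu6
    omega
  rw [if_pos ⟨hc1, hc2⟩]
  -- `W` is an interval
  set A : ℕ := max P (max (y / v) (y / v')) with hA
  set N : ℕ := min (2 * P) (min ((y + h) / v) ((y + h) / v')) - A with hN
  have hset : W = Ioc A (A + N) := by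
    ext u
    rw [hW, mem_filter, mem_Ioc, mem_Ioc, ← Nat.div_lt_iff_lt_mul hv, ← Nat.div_lt_iff_lt_mul hv',
      ← Nat.le_div_iff_mul_le hv, ← Nat.le_div_iff_mul_le hv']
    omega
  have hNle : N ≤ h / v + 1 := by
    have e1 : (y + h) / v ≤ y / v + h / v + 1 := by
      rw [Nat.add_div hv]
      split_ifs
      · exact le_rfl
      · exact Nat.le_succ _
    have g1 : min (2 * P) (min ((y + h) / v) ((y + h) / v')) ≤ (y + h) / v :=
      (min_le_right _ _).trans (min_le_left _ _)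
    have g2 : y / v ≤ A := (le_max_left _ _).trans (le_max_right _ _)
    rw [hN]
    generalize min (2 * P) (min ((y + h) / v) ((y + h) / v')) = m1 at g1 ⊢
    generalize (y + h) / v = m2 at g1 e1
    generalize y / v = m3 at g2 e1
    generalize h / v = m4 at e1 ⊢
    omega
  have hvr : (0 : ℝ) < v := by exact_mod_cast hv
  have hNr : (N : ℝ) ≤ 2 * P * h / y + 1 := by
    have e1 : (N : ℝ) ≤ ((h / v : ℕ) : ℝ) + 1 := by exact_mod_cast hNle
    have e2 : ((h / v : ℕ) : ℝ) ≤ (h : ℝ) / v := Nat.cast_div_le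
    have e3 : (y : ℝ) ≤ 2 * P * v := by
      have : y ≤ 2 * P * v := hu3.le.trans (Nat.mul_le_mul_right _ hu2)
      exact_mod_cast this
    have e4 : (h : ℝ) / v ≤ 2 * P * h / y := by
      rw [div_le_div_iff₀ hvr (by linarith)]
      have := mul_le_mul_of_nonneg_left e3 (Nat.cast_nonneg (α := ℝ) h)
      linarith
    linarith
  rw [hset, norm_mul, Complex.norm_real, Real.norm_eq_abs, abs_mul]
  refine mul_le_mul_of_nonneg_left ?_ (mul_nonneg (abs_nonneg _) (abs_nonneg _))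
  exact (h1 A N _).trans (h2 _ _ _ (Nat.cast_nonneg N) hNr)

theorem gs_zero_S (N : ℝ) : gs N 0 = N := by
  simp [gs, nd]

/-- the sum over one variable -/
theorem row_S (ha : StGeo1) (N : ℝ) (hN : 0 ≤ N) (M K : ℕ) (α : ℝ) (v : ℕ) (hv : v ∈ Ioc 0 M) :
    ∑ v' ∈ Ioc 0 M, (if v ≤ v' + K ∧ v' ≤ v + K then gs N (((v : ℝ) - v') * α) else 0) ≤
      N + 2 * ∑ k ∈ Icc 1 K, gs N (k * α) := by
  obtain ⟨h1, h2, h3, h4⟩ := ha
  rw [mem_Ioc] at hv
  have hsplit : (Ioc 0 M).filter (fun v' => v ≤ v' + K ∧ v' ≤ v + K) =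
      ((Ioc 0 (v - 1)).filter (fun v' => v ≤ v' + K) ∪ {v}) ∪
        (Ioc v M).filter (fun v' => v' ≤ v + K) := by
    ext n
    simp only [mem_union, mem_Ioc, mem_singleton, mem_filter]
    omega
  have hd1 : Disjoint ((Ioc 0 (v - 1)).filter (fun v' => v ≤ v' + K) ∪ {v})
      ((Ioc v M).filter (fun v' => v' ≤ v + K)) := by
    rw [disjoint_left]
    intro n hn hn'
    simp only [mem_union, mem_Ioc, mem_singleton, mem_filter] at hn hn'
    omega
  have hd2 : Disjoint ((Ioc 0 (v - 1)).filter (fun v' => v ≤ v' + K)) {v} := by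
    rw [disjoint_left]
    intro n hn hn'
    simp only [mem_Ioc, mem_singleton, mem_filter] at hn hn'
    omega
  have e1 : ∑ v' ∈ (Ioc 0 (v - 1)).filter (fun v' => v ≤ v' + K), gs N (((v : ℝ) - v') * α) ≤
      ∑ k ∈ Icc 1 K, gs N (k * α) := by
    have e : ∑ v' ∈ (Ioc 0 (v - 1)).filter (fun v' => v ≤ v' + K), gs N (((v : ℝ) - v') * α) =
        ∑ k ∈ ((Ioc 0 (v - 1)).filter (fun v' => v ≤ v' + K)).image (fun v' => v - v'),
          gs N (k * α) := by
      rw [sum_image]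
      · refine sum_congr rfl fun n hn => ?_
        rw [mem_filter, mem_Ioc] at hn
        rw [Nat.cast_sub (by omega)]
      · intro n hn m hm hnm
        have h5 := mem_Ioc.1 (mem_filter.1 (mem_coe.1 hn)).1
        have h6 := mem_Ioc.1 (mem_filter.1 (mem_coe.1 hm)).1
        have h7 : v - n = v - m := hnm
        omega
    rw [e]
    refine sum_le_sum_of_subset_of_nonneg ?_ fun k _ _ => h3 _ _ hN
    intro k hk
    obtain ⟨n, hn, rfl⟩ := mem_image.1 hk
    rw [mem_filter, mem_Ioc] at hn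
    rw [mem_Icc]
    omega
  have e2 : ∑ v' ∈ (Ioc v M).filter (fun v' => v' ≤ v + K), gs N (((v : ℝ) - v') * α) ≤
      ∑ k ∈ Icc 1 K, gs N (k * α) := by
    have e : ∑ v' ∈ (Ioc v M).filter (fun v' => v' ≤ v + K), gs N (((v : ℝ) - v') * α) =
        ∑ k ∈ ((Ioc v M).filter (fun v' => v' ≤ v + K)).image (fun v' => v' - v),
          gs N (k * α) := by
      rw [sum_image]
      · refine sum_congr rfl fun n hn => ?_
        rw [mem_filter, mem_Ioc] at hn
        rw [Nat.cast_sub (by omega), ← h4 _ _ hN]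
        congr 1
        ring
      · intro n hn m hm hnm
        have h5 := mem_Ioc.1 (mem_filter.1 (mem_coe.1 hn)).1
        have h6 := mem_Ioc.1 (mem_filter.1 (mem_coe.1 hm)).1
        have h7 : n - v = m - v := hnm
        omega
    rw [e]
    refine sum_le_sum_of_subset_of_nonneg ?_ fun k _ _ => h3 _ _ hN
    intro k hk
    obtain ⟨n, hn, rfl⟩ := mem_image.1 hk
    rw [mem_filter, mem_Ioc] at hn
    rw [mem_Icc]
    omega
  rw [← sum_filter, hsplit, sum_union hd1, sum_union hd2, sum_singleton, sub_self, zero_mul,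
    gs_zero_S]
  linarith

theorem hTIIS (ha : StGeo1) (hb : StGeo2) : StTiis := by
  obtain ⟨C, hC, hgeo⟩ := hb
  refine ⟨2 + 4 * C, by positivity, ?_⟩
  intro y h P V q b0 α a b hy hhy hP hap
  have hP1 : (1 : ℝ) ≤ P := by exact_mod_cast hP
  have hy1 : (1 : ℝ) ≤ y := by exact_mod_cast hy
  have hq1 : 1 ≤ q := hap.1
  have hq1' : (1 : ℝ) ≤ q := by exact_mod_cast hq1
  have hh0 : (0 : ℝ) ≤ h := Nat.cast_nonneg h
  set M : ℕ := (y + h) / P with hM
  set K : ℕ := h / P with hK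
  obtain ⟨N, hN⟩ : ∃ N : ℝ, N = 2 * P * h / y + 1 := ⟨_, rfl⟩
  have hN1 : 1 ≤ N := by
    rw [hN]
    have : (0 : ℝ) ≤ 2 * P * h / y := by positivity
    linarith
  let c : ℕ → ℕ → ℂ := fun u v =>
    if V < v ∧ y < u * v ∧ u * v ≤ y + h then (b v : ℂ) * ex (u * v * α) else 0
  let T : ℕ → ℂ := fun u => ∑ v ∈ Ioc 0 M, c u v
  let w : ℕ → ℕ → ℝ := fun v v' =>
    if v ≤ v' + K ∧ v' ≤ v + K then gs N (((v : ℝ) - v') * α) else 0
  have hT : ∑ u ∈ Ioc P (2 * P), ∑ v ∈ (Ioc V ((y + h) / u)).filter (fun v => y < u * v),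
      ((a u * b v : ℝ) : ℂ) * ex (u * v * α) =
      ∑ u ∈ Ioc P (2 * P), (a u : ℂ) * T u := by
    refine sum_congr rfl fun u hu => ?_
    rw [mem_Ioc] at hu
    have hu0 : 0 < u := by omega
    have hset : (Ioc V ((y + h) / u)).filter (fun v => y < u * v) =
        (Ioc 0 M).filter (fun v => V < v ∧ y < u * v ∧ u * v ≤ y + h) := by
      ext v
      rw [mem_filter, mem_Ioc, mem_filter, mem_Ioc, Nat.le_div_iff_mul_le hu0, mul_comm v u]
      constructor
      · rintro ⟨⟨h1, h2⟩, h3⟩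
        refine ⟨⟨by omega, ?_⟩, h1, h3, h2⟩
        rw [hM, Nat.le_div_iff_mul_le (by omega)]
        calc v * P ≤ v * u := Nat.mul_le_mul_left _ hu.1.le
          _ = u * v := Nat.mul_comm _ _
          _ ≤ y + h := h2
      · rintro ⟨_, h1, h2, h3⟩
        exact ⟨⟨h1, h3⟩, h2⟩
    rw [hset, sum_filter, mul_sum]
    refine sum_congr rfl fun v _ => ?_
    simp only [c]
    split_ifs
    · push_cast
      ring
    · rw [mul_zero]
  -- Cauchy-Schwarz
  have hCS : ‖∑ u ∈ Ioc P (2 * P), (a u : ℂ) * T u‖ ^ 2 ≤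
      (∑ u ∈ Ioc P (2 * P), a u ^ 2) * ∑ u ∈ Ioc P (2 * P), ‖T u‖ ^ 2 := by
    have h1 : ‖∑ u ∈ Ioc P (2 * P), (a u : ℂ) * T u‖ ≤ ∑ u ∈ Ioc P (2 * P), |a u| * ‖T u‖ := by
      refine (norm_sum_le _ _).trans (le_of_eq (sum_congr rfl fun u _ => ?_))
      rw [norm_mul, Complex.norm_real, Real.norm_eq_abs]
    have h2 := Finset.sum_mul_sq_le_sq_mul_sq (Ioc P (2 * P)) (fun u => |a u|) (fun u => ‖T u‖)
    simp only [sq_abs] at h2
    exact (pow_le_pow_left₀ (norm_nonneg _) h1 2).trans h2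
  -- the square
  have hsq : ∑ u ∈ Ioc P (2 * P), ‖T u‖ ^ 2 ≤
      ∑ v ∈ Ioc 0 M, ∑ v' ∈ Ioc 0 M, |b v| * |b v'| * w v v' := by
    have e1 : ((∑ u ∈ Ioc P (2 * P), ‖T u‖ ^ 2 : ℝ) : ℂ) = ∑ v ∈ Ioc 0 M, ∑ v' ∈ Ioc 0 M,
        ∑ u ∈ Ioc P (2 * P), c u v * (starRingEnd ℂ) (c u v') := by
      push_cast
      have : ∀ u, ((‖T u‖ : ℝ) : ℂ) ^ 2 = ∑ v ∈ Ioc 0 M, ∑ v' ∈ Ioc 0 M,
          c u v * (starRingEnd ℂ) (c u v') := by
        intro u
        rw [← Complex.mul_conj', map_sum, sum_mul_sum]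
      simp only [this]
      rw [sum_comm]
      refine sum_congr rfl fun v _ => ?_
      rw [sum_comm]
    have e2 : ∑ u ∈ Ioc P (2 * P), ‖T u‖ ^ 2 =
        ‖((∑ u ∈ Ioc P (2 * P), ‖T u‖ ^ 2 : ℝ) : ℂ)‖ := by
      rw [Complex.norm_real, Real.norm_of_nonneg (sum_nonneg fun u _ => sq_nonneg _)]
    rw [e2, e1]
    refine (norm_sum_le _ _).trans (sum_le_sum fun v hv => ?_)
    refine (norm_sum_le _ _).trans (sum_le_sum fun v' hv' => ?_)
    rw [mem_Ioc] at hv hv'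
    have h1 := inner_S ha P y h V hP hy α b v v' hv.1 hv'.1
    rw [← hN] at h1
    exact h1
  have hw0 : ∀ v v', 0 ≤ w v v' := by
    intro v v'
    simp only [w]
    split_ifs
    · exact ha.2.2.1 _ _ (by linarith)
    · exact le_rfl
  have hwsym : ∀ v v', w v' v = w v v' := by
    intro v v'
    simp only [w]
    by_cases h1 : v ≤ v' + K ∧ v' ≤ v + K
    · rw [if_pos h1, if_pos ⟨h1.2, h1.1⟩, ← ha.2.2.2 _ _ (by linarith : (0 : ℝ) ≤ N)]
      congr 1
      ring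
    · rw [if_neg h1, if_neg (fun h2 => h1 ⟨h2.2, h2.1⟩)]
  have hsym : ∑ v ∈ Ioc 0 M, ∑ v' ∈ Ioc 0 M, |b v| * |b v'| * w v v' ≤
      ∑ v ∈ Ioc 0 M, b v ^ 2 * ∑ v' ∈ Ioc 0 M, w v v' := by
    have e1 : ∑ v ∈ Ioc 0 M, ∑ v' ∈ Ioc 0 M, |b v| * |b v'| * w v v' ≤
        ∑ v ∈ Ioc 0 M, ∑ v' ∈ Ioc 0 M, (b v ^ 2 / 2 * w v v' + b v' ^ 2 / 2 * w v v') := by
      refine sum_le_sum fun v _ => sum_le_sum fun v' _ => ?_
      rw [← add_mul]
      refine mul_le_mul_of_nonneg_right ?_ (hw0 _ _)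
      nlinarith [sq_nonneg (|b v| - |b v'|), sq_abs (b v), sq_abs (b v')]
    have e2 : ∑ v ∈ Ioc 0 M, ∑ v' ∈ Ioc 0 M, b v' ^ 2 / 2 * w v v' =
        ∑ v ∈ Ioc 0 M, ∑ v' ∈ Ioc 0 M, b v ^ 2 / 2 * w v v' := by
      rw [sum_comm]
      refine sum_congr rfl fun v _ => sum_congr rfl fun v' _ => ?_
      rw [hwsym]
    refine e1.trans (le_of_eq ?_)
    simp only [sum_add_distrib]
    rw [e2, ← sum_add_distrib]
    refine sum_congr rfl fun v _ => ?_
    rw [← sum_add_distrib, mul_sum]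
    refine sum_congr rfl fun v' _ => ?_
    ring
  have hrow : ∑ v ∈ Ioc 0 M, b v ^ 2 * ∑ v' ∈ Ioc 0 M, w v v' ≤
      (∑ v ∈ Ioc 0 M, b v ^ 2) * (N + 2 * ∑ k ∈ Icc 1 K, gs N (k * α)) := by
    rw [sum_mul]
    exact sum_le_sum fun v hv =>
      mul_le_mul_of_nonneg_left (row_S ha N (by linarith) M K α v hv) (sq_nonneg _)
  have hg := hgeo K q N b0 α hN1 hap
  have hlq0 : 0 ≤ Real.log q := Real.log_nonneg hq1'
  obtain ⟨Z, hZ⟩ : ∃ Z : ℝ, Z = (P : ℝ) * h / y + 1 + q * (1 + Real.log q) := ⟨_, rfl⟩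
  obtain ⟨Y, hY⟩ : ∃ Y : ℝ, Y = (h : ℝ) / (P * q) + 1 := ⟨_, rfl⟩
  have hZ0 : 0 ≤ Z := by
    rw [hZ]
    positivity
  have hY1 : 1 ≤ Y := by
    rw [hY]
    have : 0 ≤ (h : ℝ) / (P * q) := by positivity
    linarith
  have hfin : N + 2 * ∑ k ∈ Icc 1 K, gs N (k * α) ≤ (2 + 4 * C) * (Y * Z) := by
    have hqq : 0 ≤ (q : ℝ) * (1 + Real.log q) := by positivity
    have f1 : N ≤ 2 * Z := by
      rw [hN, hZ]
      have e : 2 * (P : ℝ) * h / y = 2 * (P * h / y) := by ring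
      rw [e]
      linarith
    have f2 : N + q * (1 + Real.log q) ≤ 2 * Z := by
      rw [hN, hZ]
      have e : 2 * (P : ℝ) * h / y = 2 * (P * h / y) := by ring
      rw [e]
      linarith
    have f3 : (K : ℝ) / q + 1 ≤ Y := by
      rw [hY]
      have e1 : (K : ℝ) ≤ h / P := Nat.cast_div_le
      have e2 : (K : ℝ) / q ≤ h / P / q := div_le_div_of_nonneg_right e1 (by linarith)
      rw [div_div] at e2
      linarith
    have f4 : ((K : ℝ) / q + 1) * (N + q * (1 + Real.log q)) ≤ Y * (2 * Z) :=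
      mul_le_mul f3 f2 (by linarith) (by linarith)
    have f5 : ∑ k ∈ Icc 1 K, gs N (k * α) ≤ C * (Y * (2 * Z)) := by
      refine hg.trans ?_
      rw [mul_assoc]
      exact mul_le_mul_of_nonneg_left f4 hC.le
    have f6 : 2 * Z ≤ 2 * (Y * Z) := by nlinarith
    nlinarith
  rw [hT, ← hZ, ← hY]
  have hA : 0 ≤ ∑ u ∈ Ioc P (2 * P), a u ^ 2 := sum_nonneg fun u _ => sq_nonneg _
  have hB : 0 ≤ ∑ v ∈ Ioc 0 M, b v ^ 2 := sum_nonneg fun u _ => sq_nonneg _
  calc ‖∑ u ∈ Ioc P (2 * P), (a u : ℂ) * T u‖ ^ 2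
      ≤ (∑ u ∈ Ioc P (2 * P), a u ^ 2) * ∑ u ∈ Ioc P (2 * P), ‖T u‖ ^ 2 := hCS
    _ ≤ (∑ u ∈ Ioc P (2 * P), a u ^ 2) *
        ((∑ v ∈ Ioc 0 M, b v ^ 2) * ((2 + 4 * C) * (Y * Z))) := by
        refine mul_le_mul_of_nonneg_left ?_ hA
        exact ((hsq.trans hsym).trans hrow).trans (mul_le_mul_of_nonneg_left hfin hB)
    _ = _ := by ring

end Pool.Agent.Helper80.SU
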