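import Pool.Agent.Helper83.SU.St

/-! Project SU (MP_f663dd_lc), module DM. -/

namespace Pool.Agent.Helper80.SU
open Pool.Agent.Helper83.SU Pool.Agent.Helper83.CK Cardinal Set
universe u

theorem mDM : StDM.{u} := by
  intro k l' l hle ⟨f, hf⟩
  have hc : Cardinal.mk l'.ord.ToType ≤ Cardinal.mk l.ord.ToType := by
    rw [mk_ord_toType, mk_ord_toType]; exact hle
  obtain ⟨ι⟩ := hc
  refine ⟨fun t => f (ι '' t), fun X hX => ?_⟩
  have h1 := hf (ι '' X) (by rw [mk_image_eq ι.injective, hX])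
  apply Set.eq_univ_of_forall
  intro c
  have h2 : c ∈ f '' Om (ι '' X) := by rw [h1]; trivial
  obtain ⟨t, ⟨ht1, ht2⟩, rfl⟩ := h2
  obtain ⟨t', ht', rfl⟩ := Set.subset_image_iff.1 ht1
  refine ⟨t', ⟨ht', ?_⟩, rfl⟩
  rw [mk_image_eq ι.injective] at ht2
  exact ht2

end Pool.Agent.Helper80.SU
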